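import Pool.Agent.Lib.MP_100a6c_lc.IfaceB

/-!
# MP_100a6c_lc, module CL2: unions of monotone systems are in the club
-/

universe u

open scoped symmDiff
open Cardinal

namespace Pool.Agent.Lib.MP_100a6c_lc.H80

open BName

variable {B : Type u} [CompleteBooleanAlgebra B]

/-- The union of a small chain of members of `C` is in `C`. -/
theorem chain_mem {c : Cardinal.{u}} {Γ : B} {H C : BName B}
    (hC : Γ ≤ (VB B).isClub C H (check (Mu c))) {Y : Type u} [Nonempty Y] (D : Y → BName B)
    (hY : #Y ≤ Order.succ c) (hD : ∀ i, Γ ≤ bmem (D i) C)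
    (hch : ∀ i j, Γ ≤ (VB B).sub (D i) (D j) ⊔ (VB B).sub (D j) (D i)) (w : BName B)
    (hw : ∀ z, Γ ⊓ bmem z w = Γ ⊓ ⨆ i, bmem z (D i)) : Γ ≤ bmem w C := by
  let Dn : BName B := mk Y D fun _ => ⊤
  have h3 : Γ ≤ (VB B).sub Dn C ⊓ (⨆ c, (VB B).mem c Dn) ⊓ (VB B).leCard Dn (check (Mu c)) ⊓
      (⨅ c, ⨅ c', (VB B).mem c Dn ⊓ (VB B).mem c' Dn ⇨ (VB B).sub c c' ⊔ (VB B).sub c' c) := by
    refine le_inf (le_inf (le_inf ?_ ?_) ?_) ?_
    · rw [le_sub_iff]
      intro i
      exact inf_le_left.trans (hD i)
    · refine le_iSup_of_le (D (Classical.arbitrary Y)) ?_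
      have h1 := vl_le_bmem Dn (Classical.arbitrary Y)
      exact le_top.trans h1
    · refine le_leCard_of_enum (Order.succ c) hY (t := D) ?_
      intro z
      rw [mem_mk]
      exact inf_le_right.trans (iSup_mono fun i => inf_le_right)
    · refine le_iInf fun a => le_iInf fun b => ?_
      rw [le_himp_iff, VB_mem, VB_mem, mem_mk, mem_mk, iSup_inf_iSup, inf_iSup_eq]
      refine iSup_le fun ⟨i, j⟩ => ?_
      have e1 : Ext (fun x => (VB B).sub x b ⊔ (VB B).sub b x) :=
        (ext_sub_left b).sup (ext_sub_right b)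
      have e2 : Ext (fun y => (VB B).sub (D i) y ⊔ (VB B).sub y (D i)) :=
        (ext_sub_right (D i)).sup (ext_sub_left (D i))
      refine e1.of_le' (x := D i) ?_ ?_
      · exact inf_le_right.trans (inf_le_left.trans inf_le_right)
      · refine e2.of_le' (x := D j) ?_ ?_
        · exact inf_le_right.trans (inf_le_right.trans inf_le_right)
        · exact inf_le_left.trans (hch i j)
  have h4 := iInf_himp_apply (hC.trans inf_le_right) Dn le_rfl h3
  refine iInf_himp_apply h4 w le_rfl ?_
  refine le_iInf fun y => ?_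
  rw [le_bihimp_iff', VB_mem, hw y]
  congr 1
  have h5 := iSup_mem (ext_mem_right y) Dn
  refine Eq.trans ?_ h5.symm
  exact (iSup_congr fun i => top_inf_eq _).symm

theorem mem_clU {I : Type u} (cl : Finset I → BName B) (X : Set I) (z : BName B) :
    bmem z (clU cl X) = ⨆ F : {F : Finset I // (F : Set I) ⊆ X ∧ F.Nonempty}, bmem z (cl F.1) := by
  unfold clU
  rw [mem_uni]
  exact iSup_congr fun i => top_inf_eq _

theorem clU_mono {I : Type u} (cl : Finset I → BName B) {X X' : Set I} (h : X ⊆ X')
    (z : BName B) : bmem z (clU cl X) ≤ bmem z (clU cl X') := by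
  rw [mem_clU, mem_clU]
  exact iSup_le fun F => le_iSup_of_le ⟨F.1, F.2.1.trans h, F.2.2⟩ le_rfl

theorem clU_sub {I : Type u} (cl : Finset I → BName B) {X X' : Set I} (h : X ⊆ X') :
    (VB B).sub (clU cl X) (clU cl X') = ⊤ := by
  rw [eq_top_iff]
  refine le_iInf fun z => ?_
  rw [le_himp_iff, top_inf_eq]
  exact clU_mono cl h z

/-- An increasing filtration of an infinite set by smaller sets. -/
theorem exists_filtration {I : Type u} (X : Set I) (hX : X.Infinite) :
    ∃ f : X → Set I, (∀ x, f x ⊆ X) ∧ (∀ x, (x : I) ∈ f x) ∧ (∀ x, #(f x) < #X) ∧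
      (∀ x y, f x ⊆ f y ∨ f y ⊆ f x) ∧ ∀ F : Finset I, (F : Set I) ⊆ X → F.Nonempty →
        ∃ x, (F : Set I) ⊆ f x := by
  classical
  obtain ⟨r, wo, hr⟩ := Cardinal.exists_ord_eq X
  have hinf : ℵ₀ ≤ #X := Cardinal.infinite_iff.1 hX.to_subtype
  refine ⟨fun x => {i | ∃ h : i ∈ X, ¬ r x ⟨i, h⟩}, ?_, ?_, ?_, ?_, ?_⟩
  · rintro x i ⟨h, _⟩
    exact h
  · intro x
    exact ⟨x.2, irrefl_of r x⟩
  · intro x
    have h1 : #({y | r y x} : Set X) < #X := by
      have h0 := Cardinal.card_typein_lt (r := r) x hr
      have h1 : #{y // r y x} < #X := by simpa using h0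
      exact h1
    have h2 : #({i | ∃ h : i ∈ X, ¬ r x ⟨i, h⟩} : Set I) ≤ #({y | ¬ r x y} : Set X) := by
      refine Cardinal.mk_le_of_injective (f := fun i => ⟨⟨i.1, i.2.choose⟩, i.2.choose_spec⟩) ?_
      intro i j hij
      apply Subtype.ext
      have := congrArg (fun y => (y.1 : I)) hij
      exact this
    have h3 : ({y | ¬ r x y} : Set X) = insert x {y | r y x} := by
      ext y
      simp only [Set.mem_ofPred_eq, Set.mem_insert_iff]
      constructor
      · intro h
        rcases trichotomous_of r x y with h' | h' | h'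
        · exact absurd h' h
        · exact Or.inl h'.symm
        · exact Or.inr h'
      · rintro (rfl | h) h'
        · exact irrefl_of r _ h'
        · exact irrefl_of r _ (trans_of r h h')
    refine lt_of_le_of_lt h2 ?_
    rw [h3]
    refine lt_of_le_of_lt (Cardinal.mk_insert_le) ?_
    exact Cardinal.add_lt_of_lt hinf h1 (lt_of_lt_of_le Cardinal.one_lt_aleph0 hinf)
  · intro x y
    rcases trichotomous_of r x y with h' | h' | h'
    · left
      rintro i ⟨h, hi⟩
      refine ⟨h, fun h2 => hi (trans_of r h' h2)⟩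
    · subst h'; left; exact subset_rfl
    · right
      rintro i ⟨h, hi⟩
      refine ⟨h, fun h2 => hi (trans_of r h' h2)⟩
  · intro F
    induction F using Finset.induction_on with
    | empty => intro _ h; exact absurd h (by simp)
    | @insert a F ha ih =>
      intro hF _
      have haX : a ∈ X := hF (by simp)
      by_cases hFn : F.Nonempty
      · obtain ⟨x, hx⟩ := ih (fun i hi => hF (by simp [Finset.mem_coe.1 hi])) hFn
        rcases trichotomous_of r x ⟨a, haX⟩ with h' | h' | h'
        · refine ⟨⟨a, haX⟩, ?_⟩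
          intro i hi
          rcases Finset.mem_insert.1 (Finset.mem_coe.1 hi) with rfl | hi
          · exact ⟨haX, irrefl_of r _⟩
          · obtain ⟨h, h2⟩ := hx hi
            exact ⟨h, fun h3 => h2 (trans_of r h' h3)⟩
        · refine ⟨x, ?_⟩
          intro i hi
          rcases Finset.mem_insert.1 (Finset.mem_coe.1 hi) with rfl | hi
          · refine ⟨haX, ?_⟩
            rw [← h']
            exact irrefl_of r _
          · exact hx hi
        · refine ⟨x, ?_⟩
          intro i hi
          rcases Finset.mem_insert.1 (Finset.mem_coe.1 hi) with rfl | hi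
          · exact ⟨haX, fun h3 => irrefl_of r _ (trans_of r h' h3)⟩
          · exact hx hi
      · rw [Finset.not_nonempty_iff_eq_empty] at hFn
        subst hFn
        refine ⟨⟨a, haX⟩, ?_⟩
        intro i hi
        have : i = a := by simpa using hi
        subst this
        exact ⟨haX, irrefl_of r _⟩

/-- CL2. -/
theorem cl2 : CL2Statement.{u} := by
  classical
  intro B _ c hc Γ H C I A hC cl hcl X hX hXc
  -- induction on the cardinality
  have key : ∀ κ : Cardinal.{u}, κ ≤ Order.succ c → ∀ X : Set I, X.Nonempty → #X = κ →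
      Γ ≤ bmem (clU cl X) C := by
    intro κ
    induction κ using WellFoundedLT.induction with
    | ind κ ih =>
      intro hκ X hX hXκ
      by_cases hfin : X.Finite
      · -- finite
        have hne : hfin.toFinset.Nonempty := by
          rw [Set.Finite.toFinset_nonempty]; exact hX
        refine (ext_mem_left C).of_le' (x := cl hfin.toFinset) ?_ (hcl.mem _ hne)
        rw [le_beq_iff]
        intro z
        rw [mem_clU]
        refine le_antisymm (le_inf inf_le_left ?_) (le_inf inf_le_left ?_)
        · rw [inf_iSup_eq]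
          refine iSup_le fun F => ?_
          have hsub : F.1 ⊆ hfin.toFinset := by
            intro i hi
            rw [Set.Finite.mem_toFinset]
            exact F.2.1 hi
          exact sub_apply (hcl.mono F.1 _ F.2.2 hsub) z inf_le_left inf_le_right
        · exact inf_le_right.trans (le_iSup_of_le ⟨hfin.toFinset, by simp, hne⟩ le_rfl)
      · obtain ⟨f, hf1, hf2, hf3, hf4, hf5⟩ := exists_filtration X hfin
        have : Nonempty X := hX.to_subtype
        refine chain_mem hC (fun x : X => clU cl (f x)) (by rw [hXκ]; exact hκ) ?_ ?_ _ ?_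
        · intro x
          exact ih #(f x) (hXκ ▸ hf3 x) ((hf3 x).le.trans (hXκ ▸ hκ)) (f x) ⟨_, hf2 x⟩ rfl
        · intro x y
          rcases hf4 x y with h | h
          · rw [clU_sub cl h, top_sup_eq]; exact le_top
          · rw [clU_sub cl h, sup_top_eq]; exact le_top
        · intro z
          congr 1
          refine le_antisymm ?_ (iSup_le fun x => clU_mono cl (hf1 x) z)
          rw [mem_clU]
          refine iSup_le fun F => ?_
          obtain ⟨x, hx⟩ := hf5 F.1 F.2.1 F.2.2
          refine le_iSup_of_le x ?_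
          rw [mem_clU]
          exact le_iSup_of_le ⟨F.1, hx, F.2.2⟩ le_rfl
  exact key #X hXc X hX rfl

end Pool.Agent.Lib.MP_100a6c_lc.H80
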